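import Mathlib

namespace Pool.Agent.Lib.MP_cb5b52_nt

/-- p_A(n,k): the number of k-tuples of naturals c with c_1 a_1 + ... + c_k a_k = n
(the sequence is indexed from 0, so a 0 is the first term). -/
noncomputable def pA (a : ℕ → ℕ) (n k : ℕ) : ℕ :=
  Set.ncard {c : Fin k → ℕ | ∑ i : Fin k, c i * a i = n}

/-- The number of n ≤ N for which p_A(n,k) is odd, divided by N. -/
noncomputable def oddRatio (a : ℕ → ℕ) (k N : ℕ) : ℝ :=
  (Set.ncard {n : ℕ | n ≤ N ∧ pA a n k % 2 = 1} : ℝ) / (N : ℝ)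

end Pool.Agent.Lib.MP_cb5b52_nt
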