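import Pool.Agent.Lib.MP_cb5b52_nt.Defs

namespace Pool.Agent.Lib.MP_cb5b52_nt

open Filter Topology

lemma finite_sol (a : ℕ → ℕ) (ha : ∀ i, 0 < a i) (n k : ℕ) :
    {c : Fin k → ℕ | ∑ i : Fin k, c i * a i = n}.Finite := by
  apply (Set.Finite.pi' (fun _ : Fin k => Set.finite_Iic n)).subset
  intro c hc i
  simp only [Set.mem_ofPred_eq] at hc
  have h1 : c i * a i ≤ ∑ i : Fin k, c i * a i :=
    Finset.single_le_sum (f := fun i : Fin k => c i * a i) (fun _ _ => Nat.zero_le _)
      (Finset.mem_univ i)
  have h2 : c i ≤ c i * a i := Nat.le_mul_of_pos_right _ (ha i)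
  simp only [Set.mem_Iic]
  omega

lemma pA_rec (a : ℕ → ℕ) (ha : ∀ i, 0 < a i) (n k : ℕ) :
    pA a n (k + 1) = pA a n k + if a k ≤ n then pA a (n - a k) (k + 1) else 0 := by
  classical
  unfold pA
  set S := {c : Fin (k + 1) → ℕ | ∑ i : Fin (k + 1), c i * a i = n} with hS
  have hfin : S.Finite := finite_sol a ha n (k + 1)
  have hsplit : S = {c ∈ S | c (Fin.last k) = 0} ∪ {c ∈ S | c (Fin.last k) ≠ 0} := by
    ext c; simp only [Set.mem_union, Set.mem_ofPred_eq]; tauto
  rw [hsplit, Set.ncard_union_eq _ (hfin.subset (fun c hc => hc.1))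
    (hfin.subset (fun c hc => hc.1))]
  · congr 1
    · symm
      apply Set.ncard_congr (fun c _ => Fin.snoc (α := fun _ => ℕ) c 0)
      · intro c hc
        simp only [Set.mem_ofPred_eq, hS] at hc ⊢
        refine ⟨?_, by simp⟩
        rw [Fin.sum_univ_castSucc]
        simpa using hc
      · intro c c' _ _ h
        have := congrArg Fin.init h
        simpa using this
      · intro c hc
        simp only [Set.mem_ofPred_eq, hS] at hc
        obtain ⟨h1, h2⟩ := hc
        refine ⟨Fin.init c, ?_, ?_⟩
        · rw [Fin.sum_univ_castSucc, h2] at h1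
          simpa [Fin.init] using h1
        · rw [← h2]; exact Fin.snoc_init_self c
    · split_ifs with h
      · symm
        apply Set.ncard_congr
          (fun c _ => Function.update c (Fin.last k) (c (Fin.last k) + 1))
        · intro c hc
          simp only [Set.mem_ofPred_eq, hS] at hc ⊢
          refine ⟨?_, by simp⟩
          rw [Fin.sum_univ_castSucc] at hc ⊢
          have : ∀ i : Fin k, Function.update c (Fin.last k) (c (Fin.last k) + 1) i.castSucc
              = c i.castSucc := fun i => Function.update_of_ne (Fin.castSucc_lt_last i).ne _ _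
          simp only [this, Function.update_self, Fin.val_last] at hc ⊢
          rw [add_mul]
          omega
        · intro c c' _ _ h
          funext i
          have := congrFun h i
          by_cases hi : i = Fin.last k
          · subst hi; simpa using this
          · simpa [Function.update_of_ne hi] using this
        · intro c hc
          simp only [Set.mem_ofPred_eq, hS] at hc
          obtain ⟨h1, h2⟩ := hc
          obtain ⟨m, hm⟩ : ∃ m, c (Fin.last k) = m + 1 := ⟨c (Fin.last k) - 1, by omega⟩
          refine ⟨Function.update c (Fin.last k) m, ?_, ?_⟩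
          · simp only [Set.mem_ofPred_eq]
            rw [Fin.sum_univ_castSucc] at h1 ⊢
            have : ∀ i : Fin k, Function.update c (Fin.last k) m i.castSucc
                = c i.castSucc := fun i => Function.update_of_ne (Fin.castSucc_lt_last i).ne _ _
            simp only [this, Function.update_self, Fin.val_last, hm] at h1 ⊢
            rw [add_mul] at h1
            omega
          · simp [← hm]
      · rw [Set.ncard_eq_zero (hfin.subset (fun c hc => hc.1))]
        ext c
        simp only [Set.mem_ofPred_eq, hS, Set.mem_empty_iff_false, iff_false, not_and, not_not]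
        intro h1
        by_contra h2
        rw [Fin.sum_univ_castSucc] at h1
        have : a k ≤ c (Fin.last k) * a k := Nat.le_mul_of_pos_left _ (Nat.pos_of_ne_zero h2)
        simp only [Fin.val_last] at h1
        omega
  · rw [Set.disjoint_left]
    intro c h1 h2
    exact h2.2 h1.2

lemma pA_zero (a : ℕ → ℕ) (n : ℕ) : pA a n 0 = if n = 0 then 1 else 0 := by
  unfold pA
  split_ifs with h
  · subst h
    simp
  · rw [Set.ncard_eq_zero (Set.toFinite _)]
    ext c
    simp [eq_comm, h]

/-- parity recursion -/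
lemma par_add (a : ℕ → ℕ) (ha : ∀ i, 0 < a i) (n k : ℕ) :
    (pA a (n + a k) (k + 1) : ZMod 2) = pA a (n + a k) k + pA a n (k + 1) := by
  rw [pA_rec a ha (n + a k) k, if_pos (by omega), Nat.add_sub_cancel]
  push_cast; rfl

lemma periodic_step (f g : ℕ → ZMod 2) (b T : ℕ) (hf : ∀ n, f (n + T) = f n)
    (hg : ∀ n, g (n + b) = f (n + b) + g n) (n : ℕ) : g (n + 2 * (b * T)) = g n := by
  have hfm : ∀ m n, f (n + m * T) = f n := by
    intro m
    induction m with
    | zero => simp
    | succ m ih => intro n; rw [add_mul, one_mul, ← add_assoc, hf, ih]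
  have hsum : ∀ j n, g (n + b * j) = g n + ∑ i ∈ Finset.range j, f (n + b * (i + 1)) := by
    intro j
    induction j with
    | zero => simp
    | succ j ih =>
      intro n
      rw [Finset.sum_range_succ, mul_add, mul_one, ← add_assoc, hg, ih]
      ring
  have e : n + 2 * (b * T) = (n + b * T) + b * T := by ring
  rw [e, hsum, hsum]
  have : ∑ i ∈ Finset.range T, f (n + b * T + b * (i + 1))
      = ∑ i ∈ Finset.range T, f (n + b * (i + 1)) := by
    apply Finset.sum_congr rfl
    intro i _
    have : n + b * T + b * (i + 1) = n + b * (i + 1) + b * T := by ring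
    rw [this, hfm]
  rw [this, add_assoc, CharTwo.add_self_eq_zero, add_zero]

def seq (i : ℕ) : ℕ := if i < 3 then 2 ^ i else 8 * (i - 2)

lemma seq_pos (i : ℕ) : 0 < seq i := by
  unfold seq; split_ifs with h
  · positivity
  · omega

lemma pA_one (n : ℕ) : pA seq n 1 = 1 := by
  induction n with
  | zero => rw [pA_rec seq seq_pos, pA_zero]; simp [seq]
  | succ n ih => rw [pA_rec seq seq_pos, pA_zero]; simp [seq, ih]

lemma periodic (k : ℕ) : ∃ T, 0 < T ∧ ∀ n, (pA seq (n + T) (k + 1) : ZMod 2) = pA seq n (k + 1) := by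
  induction k with
  | zero => exact ⟨1, one_pos, fun n => by simp [pA_one]⟩
  | succ k ih =>
    obtain ⟨T, hT, h⟩ := ih
    refine ⟨2 * (seq (k + 1) * T), by have := seq_pos (k + 1); positivity, fun n => ?_⟩
    exact periodic_step (fun n => (pA seq n (k + 1) : ZMod 2))
      (fun n => (pA seq n (k + 2) : ZMod 2)) (seq (k + 1)) T h
      (fun n => par_add seq seq_pos n (k + 1)) n

lemma pA_two (n : ℕ) : pA seq n 2 = n / 2 + 1 := by
  induction n using Nat.strong_induction_on with
  | _ n ih =>
    rw [pA_rec seq seq_pos, pA_one]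
    have : seq 1 = 2 := rfl
    rw [this]
    split_ifs with h
    · rw [ih (n - 2) (by omega)]; omega
    · omega

lemma pA_three (n : ℕ) : pA seq n 3 % 2 = if n % 8 < 2 then 1 else 0 := by
  induction n using Nat.strong_induction_on with
  | _ n ih =>
    rw [pA_rec seq seq_pos, pA_two]
    have : seq 2 = 4 := rfl
    rw [this]
    by_cases h : 4 ≤ n
    · rw [if_pos h]
      have := ih (n - 4) (by omega)
      change pA seq (n - 4) (2 + 1) % 2 = _ at this
      split_ifs at this ⊢ <;> omega
    · rw [if_neg h]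
      split_ifs <;> omega

lemma support (k : ℕ) : ∀ n, pA seq n (k + 3) % 2 = 1 → n % 8 < 2 := by
  induction k with
  | zero =>
    intro n h
    rw [pA_three] at h
    by_contra hc
    rw [if_neg hc] at h
    omega
  | succ k ihk =>
    intro n
    induction n using Nat.strong_induction_on with
    | _ n ih =>
      intro h
      have e : k + 1 + 3 = (k + 3) + 1 := by ring
      rw [e, pA_rec seq seq_pos] at h
      have hs : seq (k + 3) = 8 * (k + 1) := by simp [seq]
      rw [hs] at h
      by_contra hc
      have h1 := ihk n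
      by_cases h8 : 8 * (k + 1) ≤ n
      · rw [if_pos h8] at h
        have h2 := ih (n - 8 * (k + 1)) (by omega)
        rw [e] at h2
        omega
      · rw [if_neg h8] at h
        omega

lemma ncard_eq_count (p : ℕ → Prop) [DecidablePred p] (N : ℕ) :
    Set.ncard {n : ℕ | n ≤ N ∧ p n} = Nat.count p (N + 1) := by
  rw [Nat.count_eq_card_filter_range, ← Set.ncard_coe_finset]
  congr 1
  ext n
  simp

lemma count_periodic (p : ℕ → Prop) [DecidablePred p] (T : ℕ) (hp : ∀ n, p (n + T) ↔ p n)
    (q r : ℕ) : Nat.count p (q * T + r) = q * Nat.count p T + Nat.count p r := by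
  induction q with
  | zero => simp
  | succ q ih =>
    have e : (q + 1) * T + r = T + (q * T + r) := by ring
    rw [e, Nat.count_add]
    have : (fun k => p (T + k)) = p := by
      funext k; rw [add_comm]; exact propext (hp k)
    simp only [this]
    rw [ih]; ring

lemma density_periodic (p : ℕ → Prop) [DecidablePred p] (T : ℕ) (hT : 0 < T)
    (hp : ∀ n, p (n + T) ↔ p n) :
    Tendsto (fun N : ℕ => (Nat.count p (N + 1) : ℝ) / (N : ℝ)) atTop
      (𝓝 ((Nat.count p T : ℝ) / T)) := by
  set c : ℝ := (Nat.count p T : ℝ) / T with hc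
  have hTr : (0 : ℝ) < T := by exact_mod_cast hT
  have hc0 : 0 ≤ c := by positivity
  have hc1 : c ≤ 1 := by
    rw [hc, div_le_one hTr]; exact_mod_cast Nat.count_le p
  have hb : ∀ N : ℕ, |(Nat.count p (N + 1) : ℝ) - c * N| ≤ T + 1 := by
    intro N
    have h := count_periodic p T hp ((N + 1) / T) ((N + 1) % T)
    have hN : (N + 1) / T * T + (N + 1) % T = N + 1 := Nat.div_add_mod' _ _
    rw [hN] at h
    have hr : (N + 1) % T < T := Nat.mod_lt _ hT
    have hcr : Nat.count p ((N + 1) % T) ≤ (N + 1) % T := Nat.count_le p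
    generalize (N + 1) / T = q at *
    generalize (N + 1) % T = r at *
    have hN' : (N : ℝ) = q * T + r - 1 := by
      have : ((q * T + r : ℕ) : ℝ) = ((N + 1 : ℕ) : ℝ) := by rw [hN]
      push_cast at this; linarith
    have hcT : (Nat.count p T : ℝ) = c * T := by rw [hc]; field_simp
    rw [h, hN']
    push_cast
    rw [hcT]
    have h1 : (r : ℝ) ≤ T := by exact_mod_cast hr.le
    have h2 : (Nat.count p r : ℝ) ≤ r := by exact_mod_cast hcr
    have h3 : (0 : ℝ) ≤ Nat.count p r := by positivity
    have h4 : (0 : ℝ) ≤ r := by positivity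
    rw [abs_le]
    constructor <;> nlinarith
  have h0 : Tendsto (fun N : ℕ => ((T : ℝ) + 1) / (N : ℝ)) atTop (𝓝 0) :=
    tendsto_const_div_atTop_nhds_zero_nat _
  rw [tendsto_iff_norm_sub_tendsto_zero]
  apply squeeze_zero' (Eventually.of_forall fun _ => norm_nonneg _) _ h0
  filter_upwards [eventually_gt_atTop 0] with N hN
  have hNr : (0 : ℝ) < N := by exact_mod_cast hN
  have : (Nat.count p (N + 1) : ℝ) / N - c = ((Nat.count p (N + 1) : ℝ) - c * N) / N := by
    field_simp
  rw [this, Real.norm_eq_abs, abs_div, abs_of_pos hNr]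
  exact div_le_div_of_nonneg_right (hb N) hNr.le

lemma exists_density (k : ℕ) : ∃ d : ℝ, Tendsto (oddRatio seq (k + 1)) atTop (𝓝 d) := by
  obtain ⟨T, hT, h⟩ := periodic k
  refine ⟨_, (density_periodic (fun n => pA seq n (k + 1) % 2 = 1) T hT ?_).congr ?_⟩
  · intro n
    have := (ZMod.natCast_eq_natCast_iff' _ _ 2).mp (h n)
    rw [this]
  · intro N
    unfold oddRatio
    rw [ncard_eq_count]

lemma density_le (k : ℕ) (d : ℝ) (hd : Tendsto (oddRatio seq (k + 3)) atTop (𝓝 d)) :
    d ≤ 1 / 4 := by
  have h8 := density_periodic (fun n => n % 8 < 2) 8 (by norm_num) (fun n => by simp)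
  have hc : Nat.count (fun n => n % 8 < 2) 8 = 2 := by decide
  rw [hc] at h8
  have := le_of_tendsto_of_tendsto' hd h8 (fun N => by
    unfold oddRatio
    rw [ncard_eq_count]
    apply div_le_div_of_nonneg_right _ (Nat.cast_nonneg N)
    exact_mod_cast Nat.count_mono_left (fun n _ hn => support k n hn))
  norm_num at this ⊢
  exact this

theorem main : ∃ a : ℕ → ℕ, StrictMono a ∧ (∀ i, 0 < a i) ∧
    (∀ g : ℕ, (∀ i, g ∣ a i) → g = 1) ∧ {p : ℕ | p.Prime ∧ ∃ i, p ∣ a i}.Infinite ∧
    ∃ δ : ℕ → ℝ, (∀ k, 1 ≤ k → Tendsto (oddRatio a k) atTop (𝓝 (δ k))) ∧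
      (∀ k, 3 ≤ k → δ k ≤ 1 / 4) ∧ ¬ Tendsto δ atTop (𝓝 (1 / 2)) := by
  choose d hd using exists_density
  have hle : ∀ k, 3 ≤ k → d (k - 1) ≤ 1 / 4 := by
    intro k hk
    obtain ⟨j, rfl⟩ : ∃ j, k = j + 3 := ⟨k - 3, by omega⟩
    exact density_le j _ (hd (j + 2))
  refine ⟨seq, ?_, seq_pos, ?_, ?_, fun k => d (k - 1), ?_, hle, ?_⟩
  · apply strictMono_nat_of_lt_succ
    intro n
    unfold seq
    rcases n with _ | _ | _ | n
    · simp
    · simp
    · simp
    · rw [if_neg (by omega), if_neg (by omega)]; omega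
  · intro g hg
    exact Nat.dvd_one.mp (hg 0)
  · apply Nat.infinite_setOfPred_prime.mono
    intro p hp
    refine ⟨hp, p + 2, ?_⟩
    have : 2 ≤ p := hp.two_le
    unfold seq
    rw [if_neg (by omega)]
    simp
  · intro k hk
    obtain ⟨j, rfl⟩ : ∃ j, k = j + 1 := ⟨k - 1, by omega⟩
    exact hd j
  · intro h
    have := le_of_tendsto h (eventually_atTop.mpr ⟨3, hle⟩)
    norm_num at this

end Pool.Agent.Lib.MP_cb5b52_nt
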