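import Pool.Agent.Lib.MP_cb5b52_nt.Proof

namespace Pool.Agent.Lib.MP_cb5b52_nt

open Filter Topology

/-- a prime above `m` -/
noncomputable def nextP (m : ℕ) : ℕ := Classical.choose (Nat.exists_infinite_primes (m + 1))

lemma nextP_gt (m : ℕ) : m < nextP m :=
  (Classical.choose_spec (Nat.exists_infinite_primes (m + 1))).1

lemma nextP_prime (m : ℕ) : (nextP m).Prime :=
  (Classical.choose_spec (Nat.exists_infinite_primes (m + 1))).2

open Classical in
/-- term number `i` together with a period of the parity sequence of the first `i + 1` terms -/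
noncomputable def st : ℕ → ℕ × ℕ
  | 0 => (1, 2)
  | i + 1 =>
    if IsSquare (i + 1) then (nextP (st i).1, 2 * (nextP (st i).1 * (st i).2))
    else ((st i).2, 2 * (st i).2)

noncomputable def rs (i : ℕ) : ℕ := (st i).1

noncomputable def per (i : ℕ) : ℕ := (st i).2

lemma rs_sq {i : ℕ} (h : IsSquare (i + 1)) :
    rs (i + 1) = nextP (rs i) ∧ per (i + 1) = 2 * (rs (i + 1) * per i) := by
  simp [rs, per, st, h]

lemma rs_nsq {i : ℕ} (h : ¬ IsSquare (i + 1)) :
    rs (i + 1) = per i ∧ per (i + 1) = 2 * per i := by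
  simp [rs, per, st, h]

lemma rs_inv (i : ℕ) : 0 < rs i ∧ rs i < per i := by
  induction i with
  | zero => simp [rs, per, st]
  | succ i ih =>
    by_cases h : IsSquare (i + 1)
    · obtain ⟨h1, h2⟩ := rs_sq h
      have := nextP_gt (rs i)
      refine ⟨by omega, ?_⟩
      rw [h2]
      have : rs (i + 1) * 1 ≤ rs (i + 1) * per i := Nat.mul_le_mul_left _ (by omega)
      omega
    · obtain ⟨h1, h2⟩ := rs_nsq h
      omega

lemma rs_pos (i : ℕ) : 0 < rs i := (rs_inv i).1

lemma per_pos (i : ℕ) : 0 < per i := by have := rs_inv i; omega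

lemma rs_mono : StrictMono rs := by
  apply strictMono_nat_of_lt_succ
  intro i
  by_cases h : IsSquare (i + 1)
  · rw [(rs_sq h).1]; exact nextP_gt _
  · rw [(rs_nsq h).1]; exact (rs_inv i).2

lemma rs_one (n : ℕ) : pA rs n 1 = 1 := by
  have h0 : rs 0 = 1 := rfl
  induction n with
  | zero => rw [pA_rec rs rs_pos, pA_zero]; simp [h0]
  | succ n ih => rw [pA_rec rs rs_pos, pA_zero]; simp [h0, ih]

lemma double_step (f g : ℕ → ZMod 2) (T : ℕ) (hf : ∀ n, f (n + T) = f n)
    (hg : ∀ n, g (n + T) = f (n + T) + g n) (n : ℕ) : g (n + 2 * T) = g n := by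
  have e : n + 2 * T = (n + T) + T := by ring
  rw [e, hg, hg, hf (n + T), ← add_assoc, CharTwo.add_self_eq_zero, zero_add]

lemma rs_periodic (k : ℕ) : ∀ n, (pA rs (n + per k) (k + 1) : ZMod 2) = pA rs n (k + 1) := by
  induction k with
  | zero => intro n; simp [rs_one]
  | succ k ih =>
    intro n
    by_cases h : IsSquare (k + 1)
    · rw [(rs_sq h).2]
      exact periodic_step (fun n => (pA rs n (k + 1) : ZMod 2))
        (fun n => (pA rs n (k + 2) : ZMod 2)) (rs (k + 1)) (per k) ih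
        (fun n => par_add rs rs_pos n (k + 1)) n
    · rw [(rs_nsq h).2]
      refine double_step (fun n => (pA rs n (k + 1) : ZMod 2))
        (fun n => (pA rs n (k + 2) : ZMod 2)) (per k) ih (fun n => ?_) n
      have := par_add rs rs_pos n (k + 1)
      rw [(rs_nsq h).1] at this
      exact this

lemma mod_period (g : ℕ → ZMod 2) (T : ℕ) (hg : ∀ n, g (n + T) = g n) (n : ℕ) :
    g n = g (n % T) := by
  have h : ∀ q r, g (r + q * T) = g r := by
    intro q
    induction q with
    | zero => simp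
    | succ q ih => intro r; rw [add_mul, one_mul, ← add_assoc, hg, ih]
  conv_lhs => rw [← Nat.mod_add_div' n T]
  exact h _ _

/-- a doubling step keeps the bound `b` on the residues of the odd values -/
lemma support_step (k b : ℕ) (h : ¬ IsSquare (k + 1))
    (hs : ∀ n, (pA rs n (k + 1) : ZMod 2) ≠ 0 → n % per k < b) :
    ∀ n, (pA rs n (k + 2) : ZMod 2) ≠ 0 → n % per (k + 1) < b := by
  intro n hn
  obtain ⟨h1, h2⟩ := rs_nsq h
  have hT := per_pos k
  rw [mod_period (fun n => (pA rs n (k + 2) : ZMod 2)) _ (rs_periodic (k + 1)) n] at hn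
  have hlt : n % per (k + 1) < 2 * per k := by rw [← h2]; exact Nat.mod_lt _ (per_pos _)
  generalize n % per (k + 1) = r at hn hlt
  have low : ∀ m, m < per k → pA rs m (k + 2) = pA rs m (k + 1) := by
    intro m hm
    rw [pA_rec rs rs_pos m (k + 1), if_neg (by omega), add_zero]
  by_cases hr : r < per k
  · simp only [low r hr] at hn
    have := hs r hn
    rwa [Nat.mod_eq_of_lt hr] at this
  · exfalso
    apply hn
    obtain ⟨m, rfl⟩ : ∃ m, r = m + per k := ⟨r - per k, by omega⟩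
    have := par_add rs rs_pos m (k + 1)
    rw [h1] at this
    change (pA rs (m + per k) (k + 1 + 1) : ZMod 2) = 0
    rw [this, rs_periodic k m, low m (by omega), CharTwo.add_self_eq_zero]

lemma not_sq (m d : ℕ) (h1 : 1 ≤ d) (h2 : d ≤ 2 * m) : ¬ IsSquare (m * m + d) := by
  rintro ⟨r, hr⟩
  have a1 : m < r := by nlinarith
  nlinarith

lemma support_run (m d : ℕ) (hd : d ≤ 2 * m) :
    per (m * m + d) = 2 ^ d * per (m * m) ∧
      ∀ n, (pA rs n (m * m + d + 1) : ZMod 2) ≠ 0 → n % per (m * m + d) < per (m * m) := by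
  induction d with
  | zero => exact ⟨by simp, fun n _ => Nat.mod_lt _ (per_pos _)⟩
  | succ d ih =>
    obtain ⟨i1, i2⟩ := ih (by omega)
    have hn : ¬ IsSquare (m * m + d + 1) := not_sq m (d + 1) (by omega) hd
    refine ⟨?_, support_step (m * m + d) _ hn i2⟩
    change per (m * m + d + 1) = _
    rw [(rs_nsq hn).2, i1]; ring

lemma rs_density (k : ℕ) : ∃ d : ℝ, Tendsto (oddRatio rs (k + 1)) atTop (𝓝 d) := by
  refine ⟨_, (density_periodic (fun n => pA rs n (k + 1) % 2 = 1) (per k) (per_pos k) ?_).congr ?_⟩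
  · intro n
    have := (ZMod.natCast_eq_natCast_iff' _ _ 2).mp (rs_periodic k n)
    rw [this]
  · intro N
    unfold oddRatio
    rw [ncard_eq_count]

lemma count_lt (T b : ℕ) : Nat.count (fun n => n % T < b) T ≤ b := by
  rw [Nat.count_eq_card_filter_range]
  calc _ ≤ (Finset.range b).card := by
        apply Finset.card_le_card
        intro n hn
        simp only [Finset.mem_filter, Finset.mem_range] at hn ⊢
        have := Nat.mod_eq_of_lt hn.1
        omega
    _ = b := Finset.card_range b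

lemma rs_density_le (m : ℕ) (d : ℝ)
    (hd : Tendsto (oddRatio rs (m * m + 2 * m + 1)) atTop (𝓝 d)) : d ≤ (1 / 2) ^ (2 * m) := by
  obtain ⟨e1, e2⟩ := support_run m (2 * m) le_rfl
  have h8 := density_periodic (fun n => n % per (m * m + 2 * m) < per (m * m))
    (per (m * m + 2 * m)) (per_pos _) (fun n => by simp)
  have h := le_of_tendsto_of_tendsto' hd h8 (fun N => by
    unfold oddRatio
    rw [ncard_eq_count]
    apply div_le_div_of_nonneg_right _ (Nat.cast_nonneg N)
    refine Nat.cast_le.mpr (Nat.count_mono_left (fun n _ hn => e2 n ?_))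
    intro h0
    rw [ZMod.natCast_eq_zero_iff] at h0
    omega)
  refine h.trans ?_
  have hp : (0 : ℝ) < per (m * m) := by exact_mod_cast per_pos _
  have hc : (Nat.count (fun n => n % per (m * m + 2 * m) < per (m * m)) (per (m * m + 2 * m)) : ℝ)
      ≤ per (m * m) := by exact_mod_cast count_lt _ _
  have hq : (per (m * m + 2 * m) : ℝ) = 2 ^ (2 * m) * per (m * m) := by exact_mod_cast e1
  rw [div_le_iff₀ (by exact_mod_cast per_pos _), hq]
  refine hc.trans (le_of_eq ?_)
  rw [← mul_assoc, ← mul_pow]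
  norm_num

lemma rs_prime (m : ℕ) : (rs ((m + 1) * (m + 1))).Prime := by
  have e : (m + 1) * (m + 1) = (m * m + 2 * m) + 1 := by ring
  have hs : IsSquare ((m * m + 2 * m) + 1) := ⟨m + 1, e.symm⟩
  rw [e, (rs_sq hs).1]
  exact nextP_prime _

theorem robust : ∃ a : ℕ → ℕ, StrictMono a ∧ (∀ i, 0 < a i) ∧
    {p : ℕ | p.Prime ∧ ∃ i, a i = p}.Infinite ∧
    (∀ m g : ℕ, (∀ i, m ≤ i → g ∣ a i) → g = 1) ∧
    {p : ℕ | p.Prime ∧ ∃ i, p ∣ a i}.Infinite ∧
    ∃ δ : ℕ → ℝ, (∀ k, 1 ≤ k → Tendsto (oddRatio a k) atTop (𝓝 (δ k))) ∧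
      (∀ ε : ℝ, 0 < ε → ∀ K : ℕ, ∃ k, K ≤ k ∧ δ k < ε) ∧ ¬ Tendsto δ atTop (𝓝 (1 / 2)) := by
  choose d hd using rs_density
  have hinf : {p : ℕ | p.Prime ∧ ∃ i, rs i = p}.Infinite := by
    apply Set.infinite_of_injective_forall_mem (f := fun m : ℕ => rs ((m + 1) * (m + 1)))
    · intro x y hxy
      have := rs_mono.injective hxy
      nlinarith
    · intro m
      exact ⟨rs_prime m, _, rfl⟩
  have hsmall : ∀ ε : ℝ, 0 < ε → ∀ K : ℕ, ∃ k, K ≤ k ∧ d (k - 1) < ε := by
    intro ε hε K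
    obtain ⟨j, hj⟩ := exists_pow_lt_of_lt_one hε (show (1 / 2 : ℝ) < 1 by norm_num)
    refine ⟨(j + K) * (j + K) + 2 * (j + K) + 1, by nlinarith, ?_⟩
    have h1 := rs_density_le (j + K) _ (hd ((j + K) * (j + K) + 2 * (j + K)))
    have h2 : (1 / 2 : ℝ) ^ (2 * (j + K)) ≤ (1 / 2) ^ j :=
      pow_le_pow_of_le_one (by norm_num) (by norm_num) (by omega)
    rw [Nat.add_sub_cancel]
    linarith
  refine ⟨rs, rs_mono, rs_pos, hinf, ?_, ?_, fun k => d (k - 1), ?_, hsmall, ?_⟩
  · intro m g hg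
    have h1 := hg ((m + 1) * (m + 1)) (by nlinarith)
    have h2 := hg ((m + 1 + 1) * (m + 1 + 1)) (by nlinarith)
    have h3 : rs ((m + 1) * (m + 1)) < rs ((m + 1 + 1) * (m + 1 + 1)) := rs_mono (by nlinarith)
    have h4 := (Nat.coprime_primes (rs_prime m) (rs_prime (m + 1))).mpr h3.ne
    exact Nat.eq_one_of_dvd_coprimes h4 h1 h2
  · refine hinf.mono ?_
    rintro p ⟨hp, i, hi⟩
    exact ⟨hp, i, hi ▸ dvd_rfl⟩
  · intro k hk
    obtain ⟨j, rfl⟩ : ∃ j, k = j + 1 := ⟨k - 1, by omega⟩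
    exact hd j
  · intro h
    have h1 := (tendsto_order.1 h).1 (1 / 4) (by norm_num)
    obtain ⟨K, hK⟩ := eventually_atTop.mp h1
    obtain ⟨k, hk, hlt⟩ := hsmall (1 / 4) (by norm_num) K
    have := hK k hk
    linarith

end Pool.Agent.Lib.MP_cb5b52_nt
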